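import Pool.Agent.Work.MP_2bf34e_al.Final

set_option autoImplicit false

namespace Pool.Agent.Results.MP_2bf34e_al.LimitSeries

open PowerSeries

/-- The two-sided ideal generated by a set, as a subspace. -/
noncomputable def idealOf (K A : Type*) [Field K] [Ring A] [Algebra K A] (s : Set A) :
    Submodule K A :=
  (TwoSidedIdeal.span s).asIdeal.restrictScalars K

/-- The dimension of the image of the subspace `S` in the quotient `A / J`. -/
noncomputable def imageDim (K A : Type*) [Field K] [AddCommGroup A] [Module K A]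
    (J S : Submodule K A) : ℕ :=
  Module.finrank K (S.map J.mkQ)

/-- The dimension of the degree `k` part of `Λ(V) / (f_1, …, f_r)`: the dimension of the image
of `Λ^k(V)` in the quotient by the two-sided ideal. -/
noncomputable def quotDim (K V : Type*) [Field K] [AddCommGroup V] [Module K V] {r : ℕ}
    (f : Fin r → ExteriorAlgebra K V) (k : ℕ) : ℕ :=
  imageDim K (ExteriorAlgebra K V) (idealOf K (ExteriorAlgebra K V) (Set.range f)) (⋀[K]^k V)

/-- `f` is a tuple of forms of degrees `d_1, …, d_r` on `V`. -/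
def IsTuple (K V : Type*) [Field K] [AddCommGroup V] [Module K V] {r : ℕ} (d : Fin r → ℕ)
    (f : Fin r → ExteriorAlgebra K V) : Prop :=
  ∀ i, f i ∈ ⋀[K]^(d i) V

/-- `f` is a tuple of forms of degrees `d_1, …, d_r` for which all graded pieces of the quotient
`Λ(V) / (f_1, …, f_r)` simultaneously have the least possible dimension. -/
def IsGeneric (K V : Type*) [Field K] [AddCommGroup V] [Module K V] {r : ℕ} (d : Fin r → ℕ)
    (f : Fin r → ExteriorAlgebra K V) : Prop :=
  IsTuple K V d f ∧
    ∀ g : Fin r → ExteriorAlgebra K V, IsTuple K V d g → ∀ k, quotDim K V f k ≤ quotDim K V g k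

/-- The Hilbert series of `Λ(V) / (f_1, …, f_r)`. -/
noncomputable def hilbSeries (K V : Type*) [Field K] [AddCommGroup V] [Module K V] {r : ℕ}
    (f : Fin r → ExteriorAlgebra K V) : ℚ⟦X⟧ :=
  PowerSeries.mk (fun k => (quotDim K V f k : ℚ))

/-- The series `P(t)`: a factor `1 - t^d` for even `d`, a factor `(1 + t^d)⁻¹` for odd `d`. -/
noncomputable def P {r : ℕ} (d : Fin r → ℕ) : ℚ⟦X⟧ :=
  ∏ i, if Even (d i) then (1 - X ^ (d i)) else (1 + X ^ (d i))⁻¹

/-- The limit series in characteristic `p`: `P(t)` if `p = 0`, and `P(t)` times the product of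
the `(1 - t^(p d_i))⁻¹` over the even `d_i` if `p > 0`. -/
noncomputable def limitSeries (p : ℕ) {r : ℕ} (d : Fin r → ℕ) : ℚ⟦X⟧ :=
  if p = 0 then P d
  else P d * ∏ i ∈ Finset.univ.filter (fun i => Even (d i)), (1 - X ^ (p * d i))⁻¹

section aux

open Pool.Agent.Work.MP_2bf34e_al

lemma quotDim_eq (K V : Type*) [Field K] [AddCommGroup V] [Module K V] {r : ℕ} {d : Fin r → ℕ}
    (f : Fin r → ExteriorAlgebra K V) (hf : ∀ i, f i ∈ ⋀[K]^(d i) V) (k : ℕ) :
    quotDim K V f k = qdim (R f) (⋀[K]^k V) := by
  have h : idealOf K (ExteriorAlgebra K V) (Set.range f) = R f := by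
    ext x
    rw [idealOf, Submodule.restrictScalars_mem, TwoSidedIdeal.mem_asIdeal]
    exact span_eq_R hf x
  rw [quotDim, h, qdim, imageDim]

/-- the exponent -/
def qq (p e : ℕ) : ℕ := if Odd e then 2 else p

lemma constCoeff_one_sub (a : ℕ) (ha : 1 ≤ a) : constantCoeff (1 - X ^ a : ℚ⟦X⟧) ≠ 0 := by
  rw [map_sub, map_one, map_pow, constantCoeff_X, zero_pow (by omega), sub_zero]
  exact one_ne_zero

lemma constCoeff_one_add (a : ℕ) (ha : 1 ≤ a) : constantCoeff (1 + X ^ a : ℚ⟦X⟧) ≠ 0 := by
  rw [map_add, map_one, map_pow, constantCoeff_X, zero_pow (by omega), add_zero]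
  exact one_ne_zero

lemma map_factor (p e : ℕ) (he : 1 ≤ e) :
    PowerSeries.map (Int.castRingHom ℚ) ((1 - X ^ e) * U (qq p e) e) =
      (if Even e then (1 - X ^ e) else (1 + X ^ e)⁻¹) *
        (if p ≠ 0 ∧ Even e then (1 - X ^ (p * e))⁻¹ else 1) := by
  by_cases hev : Even e
  · have hodd : ¬ Odd e := Nat.not_odd_iff_even.mpr hev
    by_cases hp : p = 0
    · simp [hev, hodd, hp, qq, U]
    · have h := U_mul p e hp he
      have h2 := congrArg (PowerSeries.map (Int.castRingHom ℚ)) h
      rw [map_mul, map_sub, map_one, map_pow, map_X] at h2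
      have h3 : PowerSeries.map (Int.castRingHom ℚ) (U p e) = (1 - X ^ (p * e))⁻¹ := by
        rw [PowerSeries.eq_inv_iff_mul_eq_one (constCoeff_one_sub _ (by
          have : 0 < p := Nat.pos_of_ne_zero hp
          have : 0 < p * e := by positivity
          omega)), mul_comm]
        exact h2
      rw [if_pos hev, if_pos ⟨hp, hev⟩, qq, if_neg hodd, map_mul, h3, map_sub, map_one, map_pow,
        map_X]
  · have hodd : Odd e := Nat.not_even_iff_odd.mp hev
    rw [if_neg hev, if_neg (fun h => hev h.2), mul_one, qq, if_pos hodd,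
      PowerSeries.eq_inv_iff_mul_eq_one (constCoeff_one_add _ he)]
    have h := U_mul 2 e (by norm_num) he
    have h2 := congrArg (PowerSeries.map (Int.castRingHom ℚ)) h
    rw [map_mul, map_sub, map_one, map_pow, map_X, two_mul, pow_add] at h2
    rw [map_mul, map_sub, map_one, map_pow, map_X]
    linear_combination h2

lemma map_prod_factor (p : ℕ) {r : ℕ} (d : Fin r → ℕ) (hd : ∀ i, 1 ≤ d i) :
    PowerSeries.map (Int.castRingHom ℚ) (∏ i, ((1 - X ^ (d i)) * U (qq p (d i)) (d i))) =
      limitSeries p d := by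
  rw [map_prod, Finset.prod_congr rfl (fun i _ => map_factor p (d i) (hd i)),
    Finset.prod_mul_distrib, limitSeries]
  by_cases hp : p = 0
  · rw [if_pos hp, P]
    simp [hp]
  · rw [if_neg hp, P, Finset.prod_filter]
    simp [hp]

lemma limit_eq_iff (p : ℕ) {r : ℕ} (d : Fin r → ℕ) (hd : ∀ i, 1 ≤ d i) :
    limitSeries p d = P d ↔ (p = 0 ∨ ∀ i, Odd (d i)) := by
  constructor
  · intro h
    by_cases hp : p = 0
    · exact Or.inl hp
    right
    by_contra hcon
    push Not at hcon
    obtain ⟨i₀, hi₀⟩ := hcon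
    rw [Nat.not_odd_iff_even] at hi₀
    rw [limitSeries, if_neg hp] at h
    have hP : P d ≠ 0 := by
      rw [P, Finset.prod_ne_zero_iff]
      intro i _
      split_ifs
      · intro h0
        exact constCoeff_one_sub (d i) (hd i) (by rw [h0, map_zero])
      · intro h0
        have := PowerSeries.mul_inv_cancel (1 + X ^ (d i) : ℚ⟦X⟧) (constCoeff_one_add _ (hd i))
        rw [h0, mul_zero] at this
        exact zero_ne_one this
    have h1 : ∏ i ∈ Finset.univ.filter (fun i => Even (d i)), (1 - X ^ (p * d i) : ℚ⟦X⟧)⁻¹ = 1 :=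
      mul_left_cancel₀ hP (by rw [h, mul_one])
    have hpos : ∀ i, 1 ≤ p * d i := by
      intro i
      have h3 := hd i
      have : 0 < p := Nat.pos_of_ne_zero hp
      have : 0 < p * d i := by positivity
      omega
    have h2 : ∏ i ∈ Finset.univ.filter (fun i => Even (d i)), (1 - X ^ (p * d i) : ℚ⟦X⟧) = 1 := by
      have h3 : (∏ i ∈ Finset.univ.filter (fun i => Even (d i)), (1 - X ^ (p * d i) : ℚ⟦X⟧)) *
          ∏ i ∈ Finset.univ.filter (fun i => Even (d i)), (1 - X ^ (p * d i) : ℚ⟦X⟧)⁻¹ = 1 := by
        rw [← Finset.prod_mul_distrib]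
        apply Finset.prod_eq_one
        intro i _
        exact PowerSeries.mul_inv_cancel _ (constCoeff_one_sub _ (hpos i))
      rwa [h1, mul_one] at h3
    have h4 : ((∏ i ∈ Finset.univ.filter (fun i => Even (d i)),
        (1 - Polynomial.X ^ (p * d i) : Polynomial ℚ) : Polynomial ℚ) : ℚ⟦X⟧) =
        ((1 : Polynomial ℚ) : ℚ⟦X⟧) := by
      rw [← Polynomial.coeToPowerSeries.ringHom_apply, map_prod, Polynomial.coe_one, ← h2]
      apply Finset.prod_congr rfl
      intro i _
      simp [Polynomial.coeToPowerSeries.ringHom_apply]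
    have h5 := Polynomial.coe_injective ℚ h4
    have h6 := congrArg (Polynomial.eval 1) h5
    rw [Polynomial.eval_prod, Polynomial.eval_one, Finset.prod_eq_zero (i := i₀)] at h6
    · exact zero_ne_one h6
    · simpa using hi₀
    · simp
  · rintro (hp | hodd)
    · rw [limitSeries, if_pos hp]
    · rw [limitSeries]
      have : Finset.univ.filter (fun i => Even (d i)) = ∅ := by
        rw [Finset.filter_eq_empty_iff]
        intro i _
        rw [Nat.not_even_iff_odd]
        exact hodd i
      rw [this, Finset.prod_empty, mul_one, ite_self]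

end aux

/-- Generic ideals exist, and for every infinite field `K` of characteristic `p` the quotients
`q_n(t) / (1+t)^n` converge coefficientwise to `limitSeries p d`; this limit is `P(t)` exactly
when `p = 0` or all degrees `d_i` are odd. -/
theorem result (K : Type*) [Field K] [Infinite K] (p : ℕ) [CharP K p] (r : ℕ) (d : Fin r → ℕ)
    (hd : ∀ i, 1 ≤ d i) :
    (∀ n : ℕ, ∃ f : Fin r → ExteriorAlgebra K (Fin n → K), IsGeneric K (Fin n → K) d f) ∧
    (∀ k : ℕ, ∃ N : ℕ, ∀ n : ℕ, N ≤ n → ∀ f : Fin r → ExteriorAlgebra K (Fin n → K),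
      IsGeneric K (Fin n → K) d f →
        coeff k (hilbSeries K (Fin n → K) f * ((1 + X) ^ n)⁻¹) = coeff k (limitSeries p d)) ∧
    (limitSeries p d = P d ↔ (p = 0 ∨ ∀ i, Odd (d i))) := by
  refine ⟨?_, ?_, limit_eq_iff p d hd⟩
  · intro n
    obtain ⟨f, hf, hmin⟩ :=
      Pool.Agent.Work.MP_2bf34e_al.exists_generic (K := K) (V := Fin n → K) d
    refine ⟨f, hf, fun g hg k => ?_⟩
    rw [quotDim_eq K (Fin n → K) f hf, quotDim_eq K (Fin n → K) g hg]
    exact hmin g hg k
  · intro k
    have hpp : p ≠ 1 := CharP.char_ne_one K p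
    obtain ⟨N, hN⟩ := Pool.Agent.Work.MP_2bf34e_al.main K k r d (fun i => qq p (d i)) hd
      (by
        intro i
        simp only [qq]
        split_ifs
        · norm_num
        · exact hpp)
      (by
        intro i s hs hsq
        simp only [qq] at hsq
        by_cases hodd : Odd (d i)
        · rw [if_pos hodd] at hsq
          right
          exact ⟨hodd, by omega⟩
        · rw [if_neg hodd] at hsq
          left
          refine ⟨Nat.not_odd_iff_even.mp hodd, ?_⟩
          rw [Ne, CharP.cast_eq_zero_iff K p]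
          intro hdvd
          rcases hsq with h0 | hlt
          · rw [h0, zero_dvd_iff] at hdvd
            omega
          · have := Nat.le_of_dvd (by omega) hdvd
            omega)
      (by
        intro i n f hf
        simp only [qq]
        by_cases hodd : Odd (d i)
        · rw [if_pos hodd]
          right
          rw [pow_two]
          exact Pool.Agent.Work.MP_2bf34e_al.sq_zero_of_odd hodd hf
        · rw [if_neg hodd]
          by_cases hp : p = 0
          · exact Or.inl hp
          · right
            exact Pool.Agent.Work.MP_2bf34e_al.pow_char_zero (hd i)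
              (Nat.not_odd_iff_even.mp hodd) p hp hf)
    refine ⟨N, fun n hn f hf => ?_⟩
    have hfd := hf.1
    have hco := hN n hn f hfd (by
      intro g hg k
      rw [← quotDim_eq K (Fin n → K) f hfd, ← quotDim_eq K (Fin n → K) g hg]
      exact hf.2 g hg k)
    have e1 : hilbSeries K (Fin n → K) f = PowerSeries.map (Int.castRingHom ℚ)
        (Pool.Agent.Work.MP_2bf34e_al.Hs (Pool.Agent.Work.MP_2bf34e_al.R f)) := by
      ext j
      rw [hilbSeries, coeff_mk, coeff_map, Pool.Agent.Work.MP_2bf34e_al.Hs, coeff_mk,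
        quotDim_eq K (Fin n → K) f hfd]
      simp
    have e2 : coeff k (hilbSeries K (Fin n → K) f * ((1 + X) ^ n)⁻¹) =
        coeff k (PowerSeries.map (Int.castRingHom ℚ) ((1 + X) ^ n * ∏ i, ((1 - X ^ (d i)) *
          Pool.Agent.Work.MP_2bf34e_al.U (qq p (d i)) (d i))) * ((1 + X) ^ n)⁻¹) := by
      rw [e1, coeff_mul, coeff_mul]
      apply Finset.sum_congr rfl
      rintro ⟨i, j⟩ hij
      rw [Finset.HasAntidiagonal.mem_antidiagonal] at hij
      simp only at hij ⊢
      rw [coeff_map, coeff_map, hco i (by omega)]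
    rw [e2, map_mul (PowerSeries.map (Int.castRingHom ℚ)), map_prod_factor p d hd, map_pow,
      map_add, map_one, map_X, mul_assoc, mul_comm (limitSeries p d), ← mul_assoc, PowerSeries.mul_inv_cancel, one_mul]
    rw [map_pow, map_add, map_one, constantCoeff_X, add_zero, one_pow]
    exact one_ne_zero

end Pool.Agent.Results.MP_2bf34e_al.LimitSeries
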